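import Pool.Agent.Run7.h583.Tree
import Pool.Agent.Run7.h583.T.P000
import Pool.Agent.Run7.h583.T.P001
import Pool.Agent.Run7.h583.T.P002
import Pool.Agent.Run7.h583.T.P003
import Pool.Agent.Run7.h583.T.P004
import Pool.Agent.Run7.h583.T.P005
import Pool.Agent.Run7.h583.T.P006
import Pool.Agent.Run7.h583.T.P007
import Pool.Agent.Run7.h583.T.P008
import Pool.Agent.Run7.h583.T.P009
import Pool.Agent.Run7.h583.T.P010
import Pool.Agent.Run7.h583.T.P011
import Pool.Agent.Run7.h583.T.P012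
import Pool.Agent.Run7.h583.T.P013
import Pool.Agent.Run7.h583.T.P014
import Pool.Agent.Run7.h583.T.P015
import Pool.Agent.Run7.h583.T.P016
import Pool.Agent.Run7.h583.T.P017
import Pool.Agent.Run7.h583.T.P018
import Pool.Agent.Run7.h583.T.P019
import Pool.Agent.Run7.h583.T.P020
import Pool.Agent.Run7.h583.T.P021
import Pool.Agent.Run7.h583.T.P022
import Pool.Agent.Run7.h583.T.P023
import Pool.Agent.Run7.h583.T.P024
import Pool.Agent.Run7.h583.T.P025
import Pool.Agent.Run7.h583.T.P026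
import Pool.Agent.Run7.h583.T.P027
import Pool.Agent.Run7.h583.T.P028
import Pool.Agent.Run7.h583.T.P029
import Pool.Agent.Run7.h583.T.P030
import Pool.Agent.Run7.h583.T.P031
import Pool.Agent.Run7.h583.T.P032
import Pool.Agent.Run7.h583.T.P033
import Pool.Agent.Run7.h583.T.P034
import Pool.Agent.Run7.h583.T.P035
import Pool.Agent.Run7.h583.T.P036
import Pool.Agent.Run7.h583.T.P037
import Pool.Agent.Run7.h583.T.P038
import Pool.Agent.Run7.h583.T.P039
import Pool.Agent.Run7.h583.T.P040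
import Pool.Agent.Run7.h583.T.P041
import Pool.Agent.Run7.h583.T.P042
import Pool.Agent.Run7.h583.T.P043

/-! The root claim of the branch and bound tree. -/

set_option autoImplicit false

namespace Run7.h583.T

theorem root : Claim 7 10 lo0 hi0 :=
  (Claim.split 1 (Int.ofNat 8192) (Claim.split 1 (Int.ofNat 4096) (Claim.split 0 (Int.ofNat 0) (Tree.sound t0 s0) (Claim.split 0 (Int.ofNat 8192) (Claim.split 2 (Int.ofNat 0) (Claim.split 0 (Int.ofNat 4096) (Claim.split 1 (Int.ofNat 2048) (Tree.sound t1 s1) (Claim.split 0 (Int.ofNat 2048) (Tree.sound t2 s2) (Claim.split 0 (Int.ofNat 3072) (Claim.split 2 (Int.negSucc 8191) (Tree.sound t3 s3) (Claim.split 2 (Int.negSucc 4095) (Tree.sound t4 s4) (Claim.split 1 (Int.ofNat 3072) (Claim.split 0 (Int.ofNat 2560) (Tree.sound t5 s5) (Claim.split 2 (Int.negSucc 2047) (Tree.sound t6 s6) (Claim.split 3 (Int.ofNat 0) (Tree.sound t7 s7) (Tree.sound t8 s8)))) (Claim.split 0 (Int.ofNat 2560) (Tree.sound t9 s9) (Claim.split 2 (Int.negSucc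 2047) (Tree.sound t10 s10) (Claim.split 2 (Int.negSucc 1023) (Tree.sound t11 s11) (Claim.split 3 (Int.ofNat 0) (Claim.split 3 (Int.negSucc 8191) (Tree.sound t12 s12) (Tree.sound t13 s13)) (Tree.sound t14 s14)))))))) (Claim.split 2 (Int.negSucc 8191) (Tree.sound t15 s15) (Claim.split 2 (Int.negSucc 4095) (Tree.sound t16 s16) (Claim.split 1 (Int.ofNat 3072) (Claim.split 2 (Int.negSucc 2047) (Tree.sound t17 s17) (Claim.split 2 (Int.negSucc 1023) (Tree.sound t18 s18) (Claim.split 3 (Int.ofNat 0) (Tree.sound t19 s19) (Tree.sound t20 s20)))) (Claim.split 2 (Int.negSucc 2047) (Tree.sound t21 s21) (Claim.split 3 (Int.ofNat 0) (Claim.split 3 (Int.negSucc 8191) (Tree.sound t22 s22) (Claim.split 3 (Int.negSucc 4095) (Claim.split 2 (Int.negSucc 1023) (Tree.sound t23 s23) (Claim.split 3 (Int.negSucc 6143) (Tree.sound t24 s24) (Claim.split 4 (Int.ofNat 0) (Claim.split 4 (Int.negSucc 8191) (Tree.sound t25 s25) (Claim.split 4 (Int.negSucc 4095) (Claim.split 4 (Int.negSucc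 6143) (Tree.sound t26 s26) (Claim.split 4 (Int.negSucc 5119) (Claim.split 0 (Int.ofNat 3584) (Tree.sound t27 s27) (Tree.sound t28 s28)) (Claim.split 4 (Int.negSucc 4607) (Claim.split 3 (Int.negSucc 5119) (Tree.sound t29 s29) (Claim.split 3 (Int.negSucc 4607) (Tree.sound t30 s30) (Claim.split 5 (Int.ofNat 0) (Claim.split 5 (Int.negSucc 8191) (Tree.sound t31 s31) (Tree.sound t32 s32)) (Tree.sound t33 s33)))) (Tree.sound t34 s34)))) (Tree.sound t35 s35))) (Tree.sound t36 s36)))) (Claim.split 2 (Int.negSucc 1023) (Tree.sound t37 s37) (Claim.split 4 (Int.ofNat 0) (Claim.split 4 (Int.negSucc 8191) (Tree.sound t38 s38) (Claim.split 4 (Int.negSucc 4095) (Claim.split 4 (Int.negSucc 6143) (Tree.sound t39 s39) (Claim.split 3 (Int.negSucc 2047) (Claim.split 4 (Int.negSucc 5119) (Claim.split 0 (Int.ofNat 3584) (Tree.sound t40 s40) (Tree.sound t41 s41)) (Claim.split 5 (Int.ofNat 0) (Claim.split 5 (Int.negSucc 8191) (Tree.sound t42 s42) (Claim.split 5 (Int.negSucc 4095)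 (Tree.sound t43 s43) (Claim.split 5 (Int.negSucc 2047) (Claim.split 0 (Int.ofNat 3584) (Tree.sound t44 s44) (Tree.sound t45 s45)) (Tree.sound t46 s46)))) (Tree.sound t47 s47))) (Tree.sound t48 s48))) (Tree.sound t49 s49))) (Tree.sound t50 s50))))) (Tree.sound t51 s51))))))))) (Claim.split 2 (Int.negSucc 8191) (Tree.sound t52 s52) (Claim.split 2 (Int.negSucc 4095) (Tree.sound t53 s53) (Claim.split 1 (Int.ofNat 2048) (Tree.sound t54 s54) (Claim.split 0 (Int.ofNat 6144) (Claim.split 2 (Int.negSucc 2047) (Claim.split 0 (Int.ofNat 5120) (Claim.split 1 (Int.ofNat 3072) (Tree.sound t55 s55) (Tree.sound t56 s56)) (Tree.sound t57 s57)) (Claim.split 2 (Int.negSucc 1023) (Claim.split 3 (Int.ofNat 0) (Claim.split 3 (Int.negSucc 8191) (Tree.sound t58 s58) (Claim.split 3 (Int.negSucc 4095) (Tree.sound t59 s59) (Claim.split 0 (Int.ofNat 5120) (Claim.split 1 (Int.ofNat 3072) (Claim.split 4 (Int.ofNat 0) (Tree.sound t60 s60) (Tree.sound t61 s61)) (Claim.split 3 (Int.negSucc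 2047) (Claim.split 4 (Int.ofNat 0) (Tree.sound t62 s62) (Tree.sound t63 s63)) (Tree.sound t64 s64))) (Tree.sound t65 s65)))) (Tree.sound t66 s66)) (Claim.split 0 (Int.ofNat 5120) (Claim.split 3 (Int.ofNat 0) (Claim.split 3 (Int.negSucc 8191) (Tree.sound t67 s67) (Claim.split 3 (Int.negSucc 4095) (Tree.sound t68 s68) (Claim.split 1 (Int.ofNat 3072) (Tree.sound t69 s69) (Claim.split 4 (Int.ofNat 0) (Claim.split 4 (Int.negSucc 8191) (Tree.sound t70 s70) (Claim.split 4 (Int.negSucc 4095) (Tree.sound t71 s71) (Tree.sound t72 s72))) (Tree.sound t73 s73))))) (Tree.sound t74 s74)) (Tree.sound t75 s75)))) (Tree.sound t76 s76)))))) (Claim.split 0 (Int.ofNat 4096) (Claim.split 0 (Int.ofNat 2048) (Claim.split 1 (Int.ofNat 2048) (Tree.sound t77 s77) (Claim.split 2 (Int.ofNat 8192) (Claim.split 2 (Int.ofNat 4096) (Claim.split 0 (Int.ofNat 1024) (Tree.sound t78 s78) (Claim.split 3 (Int.ofNat 0) (Tree.sound t79 s79) (Claim.split 2 (Int.ofNat 2048) (Tree.sound t80 s80) (Claim.split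 3 (Int.ofNat 8192) (Claim.split 3 (Int.ofNat 4096) (Claim.split 3 (Int.ofNat 2048) (Tree.sound t81 s81) (Claim.split 1 (Int.ofNat 3072) (Claim.split 2 (Int.ofNat 3072) (Tree.sound t82 s82) (Tree.sound t83 s83)) (Claim.split 6 (Int.ofNat 0) (Claim.split 6 (Int.negSucc 8191) (Tree.sound t84 s84) (Claim.split 6 (Int.negSucc 4095) (Tree.sound t85 s85) (Claim.split 6 (Int.negSucc 2047) (Claim.split 2 (Int.ofNat 3072) (Tree.sound t86 s86) (Claim.split 0 (Int.ofNat 1536) (Tree.sound t87 s87) (Claim.split 2 (Int.ofNat 3584) (Tree.sound t88 s88) (Claim.split 4 (Int.ofNat 0) (Tree.sound t89 s89) (Claim.split 4 (Int.ofNat 8192) (Claim.split 4 (Int.ofNat 4096) (Claim.split 4 (Int.ofNat 2048) (Claim.split 3 (Int.ofNat 3072) (Claim.split 4 (Int.ofNat 1024) (Tree.sound t90 s90) (Tree.sound t91 s91)) (Claim.split 1 (Int.ofNat 3584) (Claim.split 4 (Int.ofNat 1024) (Tree.sound t92 s92) (Tree.sound t93 s93)) (Tree.sound t94 s94))) (Tree.sound t95 s95)) (Tree.sound t96 s96))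 (Tree.sound t97 s97)))))) (Claim.split 2 (Int.ofNat 3072) (Tree.sound t98 s98) (Claim.split 2 (Int.ofNat 3584) (Claim.split 3 (Int.ofNat 3072) (Tree.sound t99 s99) (Tree.sound t100 s100)) (Claim.split 4 (Int.ofNat 0) (Tree.sound t101 s101) (Claim.split 4 (Int.ofNat 8192) (Claim.split 0 (Int.ofNat 1536) (Tree.sound t102 s102) (Claim.split 3 (Int.ofNat 3072) (Tree.sound t103 s103) (Claim.split 4 (Int.ofNat 4096) (Claim.split 4 (Int.ofNat 2048) (Tree.sound t104 s104) (Tree.sound t105 s105)) (Tree.sound t106 s106)))) (Tree.sound t107 s107)))))))) (Claim.split 6 (Int.ofNat 8192) (Claim.split 3 (Int.ofNat 3072) (Claim.split 6 (Int.ofNat 4096) (Claim.split 2 (Int.ofNat 3072) (Tree.sound t108 s108) (Claim.split 2 (Int.ofNat 3584) (Tree.sound t109 s109) (Claim.split 0 (Int.ofNat 1536) (Tree.sound t110 s110) (Tree.sound t111 s111)))) (Tree.sound t112 s112)) (Claim.split 6 (Int.ofNat 4096) (Claim.split 2 (Int.ofNat 3072) (Tree.sound t113 s113) (Claim.split 2 (Int.ofNat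 3584) (Tree.sound t114 s114) (Claim.split 4 (Int.ofNat 0) (Tree.sound t115 s115) (Claim.split 4 (Int.ofNat 8192) (Claim.split 4 (Int.ofNat 4096) (Claim.split 6 (Int.ofNat 2048) (Claim.split 4 (Int.ofNat 2048) (Tree.sound t116 s116) (Tree.sound t117 s117)) (Tree.sound t118 s118)) (Tree.sound t119 s119)) (Tree.sound t120 s120))))) (Tree.sound t121 s121))) (Tree.sound t122 s122))))) (Claim.split 1 (Int.ofNat 3072) (Tree.sound t123 s123) (Claim.split 2 (Int.ofNat 3072) (Tree.sound t124 s124) (Claim.split 3 (Int.ofNat 6144) (Claim.split 4 (Int.ofNat 0) (Tree.sound t125 s125) (Claim.split 4 (Int.ofNat 8192) (Claim.split 4 (Int.ofNat 4096) (Claim.split 4 (Int.ofNat 2048) (Claim.split 1 (Int.ofNat 3584) (Tree.sound t126 s126) (Tree.sound t127 s127)) (Tree.sound t128 s128)) (Tree.sound t129 s129)) (Tree.sound t130 s130))) (Tree.sound t131 s131))))) (Tree.sound t132 s132))))) (Claim.split 2 (Int.ofNat 6144) (Claim.split 2 (Int.ofNat 5120) (Claim.split 3 (Int.ofNat 0)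 (Tree.sound t133 s133) (Claim.split 3 (Int.ofNat 8192) (Claim.split 1 (Int.ofNat 3072) (Claim.split 0 (Int.ofNat 1024) (Tree.sound t134 s134) (Tree.sound t135 s135)) (Claim.split 0 (Int.ofNat 1024) (Tree.sound t136 s136) (Claim.split 4 (Int.ofNat 0) (Claim.split 4 (Int.negSucc 8191) (Tree.sound t137 s137) (Claim.split 3 (Int.ofNat 4096) (Claim.split 4 (Int.negSucc 4095) (Tree.sound t138 s138) (Claim.split 3 (Int.ofNat 2048) (Claim.split 4 (Int.negSucc 2047) (Tree.sound t139 s139) (Claim.split 4 (Int.negSucc 1023) (Tree.sound t140 s140) (Tree.sound t141 s141))) (Claim.split 4 (Int.negSucc 2047) (Tree.sound t142 s142) (Claim.split 3 (Int.ofNat 3072) (Claim.split 2 (Int.ofNat 4608) (Claim.split 0 (Int.ofNat 1536) (Tree.sound t143 s143) (Claim.split 4 (Int.negSucc 1023) (Tree.sound t144 s144) (Tree.sound t145 s145))) (Claim.split 0 (Int.ofNat 1536) (Tree.sound t146 s146) (Claim.split 4 (Int.negSucc 1023) (Tree.sound t147 s147) (Claim.split 6 (Int.ofNat 0) (Tree.sound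 t148 s148) (Tree.sound t149 s149))))) (Tree.sound t150 s150))))) (Tree.sound t151 s151))) (Claim.split 4 (Int.ofNat 8192) (Claim.split 4 (Int.ofNat 4096) (Claim.split 4 (Int.ofNat 2048) (Claim.split 3 (Int.ofNat 4096) (Claim.split 3 (Int.ofNat 2048) (Tree.sound t152 s152) (Claim.split 4 (Int.ofNat 1024) (Claim.split 3 (Int.ofNat 3072) (Claim.split 2 (Int.ofNat 4608) (Claim.split 6 (Int.ofNat 0) (Tree.sound t153 s153) (Claim.split 6 (Int.ofNat 8192) (Claim.split 6 (Int.ofNat 4096) (Claim.split 6 (Int.ofNat 2048) (Tree.sound t154 s154) (Claim.split 5 (Int.ofNat 0) (Tree.sound t155 s155) (Claim.split 5 (Int.ofNat 8192) (Claim.split 5 (Int.ofNat 4096) (Claim.split 5 (Int.ofNat 2048) (Claim.split 7 (Int.ofNat 0) (Tree.sound t156 s156) (Tree.sound t157 s157)) (Tree.sound t158 s158)) (Tree.sound t159 s159)) (Tree.sound t160 s160)))) (Claim.split 0 (Int.ofNat 1536) (Tree.sound t161 s161) (Claim.split 5 (Int.ofNat 0) (Tree.sound t162 s162) (Claim.split 5 (Int.ofNat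 8192) (Claim.split 5 (Int.ofNat 4096) (Tree.sound t163 s163) (Tree.sound t164 s164)) (Tree.sound t165 s165))))) (Tree.sound t166 s166))) (Claim.split 6 (Int.ofNat 0) (Tree.sound t167 s167) (Claim.split 6 (Int.ofNat 8192) (Claim.split 6 (Int.ofNat 4096) (Claim.split 6 (Int.ofNat 2048) (Tree.sound t168 s168) (Claim.split 7 (Int.ofNat 0) (Tree.sound t169 s169) (Claim.split 7 (Int.ofNat 8192) (Claim.split 5 (Int.ofNat 0) (Tree.sound t170 s170) (Claim.split 5 (Int.ofNat 8192) (Claim.split 5 (Int.ofNat 4096) (Claim.split 1 (Int.ofNat 3584) (Tree.sound t171 s171) (Claim.split 0 (Int.ofNat 1536) (Tree.sound t172 s172) (Claim.split 7 (Int.ofNat 4096) (Tree.sound t173 s173) (Tree.sound t174 s174)))) (Tree.sound t175 s175)) (Tree.sound t176 s176))) (Tree.sound t177 s177)))) (Claim.split 5 (Int.ofNat 0) (Tree.sound t178 s178) (Claim.split 5 (Int.ofNat 8192) (Claim.split 5 (Int.ofNat 4096) (Tree.sound t179 s179) (Tree.sound t180 s180)) (Tree.sound t181 s181)))) (Tree.sound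 t182 s182)))) (Claim.split 6 (Int.ofNat 0) (Claim.split 6 (Int.negSucc 8191) (Tree.sound t183 s183) (Claim.split 6 (Int.negSucc 4095) (Tree.sound t184 s184) (Tree.sound t185 s185))) (Claim.split 6 (Int.ofNat 8192) (Claim.split 6 (Int.ofNat 4096) (Claim.split 6 (Int.ofNat 2048) (Tree.sound t186 s186) (Claim.split 3 (Int.ofNat 3584) (Claim.split 7 (Int.ofNat 0) (Tree.sound t187 s187) (Claim.split 7 (Int.ofNat 8192) (Claim.split 5 (Int.ofNat 0) (Tree.sound t188 s188) (Claim.split 5 (Int.ofNat 8192) (Claim.split 5 (Int.ofNat 4096) (Claim.split 3 (Int.ofNat 3328) (Claim.split 4 (Int.ofNat 512) (Tree.sound t189 s189) (Claim.split 2 (Int.ofNat 4608) (Tree.sound t190 s190) (Tree.sound t191 s191))) (Tree.sound t192 s192)) (Tree.sound t193 s193)) (Tree.sound t194 s194))) (Tree.sound t195 s195))) (Tree.sound t196 s196))) (Tree.sound t197 s197)) (Tree.sound t198 s198)))) (Claim.split 0 (Int.ofNat 1536) (Tree.sound t199 s199) (Claim.split 3 (Int.ofNat 3072) (Claim.split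 5 (Int.ofNat 0) (Tree.sound t200 s200) (Claim.split 5 (Int.ofNat 8192) (Claim.split 6 (Int.ofNat 0) (Tree.sound t201 s201) (Claim.split 6 (Int.ofNat 8192) (Claim.split 6 (Int.ofNat 4096) (Claim.split 6 (Int.ofNat 2048) (Tree.sound t202 s202) (Claim.split 5 (Int.ofNat 4096) (Claim.split 7 (Int.ofNat 0) (Tree.sound t203 s203) (Claim.split 7 (Int.ofNat 8192) (Claim.split 2 (Int.ofNat 4608) (Tree.sound t204 s204) (Tree.sound t205 s205)) (Tree.sound t206 s206))) (Tree.sound t207 s207))) (Claim.split 5 (Int.ofNat 4096) (Claim.split 2 (Int.ofNat 4608) (Claim.split 6 (Int.ofNat 6144) (Claim.split 6 (Int.ofNat 5120) (Claim.split 7 (Int.ofNat 0) (Tree.sound t208 s208) (Claim.split 7 (Int.ofNat 8192) (Claim.split 6 (Int.ofNat 4608) (Claim.split 1 (Int.ofNat 3584) (Tree.sound t209 s209) (Tree.sound t210 s210)) (Tree.sound t211 s211)) (Tree.sound t212 s212))) (Tree.sound t213 s213)) (Tree.sound t214 s214)) (Claim.split 6 (Int.ofNat 6144) (Claim.split 6 (Int.ofNat 5120)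 (Claim.split 7 (Int.ofNat 0) (Tree.sound t215 s215) (Claim.split 7 (Int.ofNat 8192) (Claim.split 6 (Int.ofNat 4608) (Claim.split 1 (Int.ofNat 3584) (Tree.sound t216 s216) (Claim.split 2 (Int.ofNat 4864) (Claim.split 4 (Int.ofNat 1536) (Claim.split 6 (Int.ofNat 4352) (Claim.split 0 (Int.ofNat 1792) (Claim.split 0 (Int.ofNat 1664) (Claim.split 2 (Int.ofNat 4736) (Tree.sound t217 s217) (Tree.sound t218 s218)) (Claim.split 2 (Int.ofNat 4736) (Claim.split 1 (Int.ofNat 3840) (Tree.sound t219 s219) (Claim.split 1 (Int.ofNat 3968) (Claim.split 3 (Int.ofNat 2560) (Tree.sound t220 s220) (Claim.split 3 (Int.ofNat 2816) (Tree.sound t221 s221) (Tree.sound t222 s222))) (Claim.split 3 (Int.ofNat 2560) (Tree.sound t223 s223) (Claim.split 3 (Int.ofNat 2816) (Tree.sound t224 s224) (Tree.sound t225 s225))))) (Tree.sound t226 s226))) (Tree.sound t227 s227)) (Tree.sound t228 s228)) (Tree.sound t229 s229)) (Tree.sound t230 s230))) (Tree.sound t231 s231)) (Tree.sound t232 s232)))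 (Tree.sound t233 s233)) (Tree.sound t234 s234))) (Tree.sound t235 s235))) (Tree.sound t236 s236))) (Tree.sound t237 s237))) (Claim.split 5 (Int.ofNat 0) (Tree.sound t238 s238) (Claim.split 5 (Int.ofNat 8192) (Claim.split 6 (Int.ofNat 0) (Tree.sound t239 s239) (Claim.split 6 (Int.ofNat 8192) (Claim.split 6 (Int.ofNat 4096) (Claim.split 6 (Int.ofNat 2048) (Tree.sound t240 s240) (Claim.split 5 (Int.ofNat 4096) (Claim.split 7 (Int.ofNat 0) (Tree.sound t241 s241) (Claim.split 7 (Int.ofNat 8192) (Claim.split 7 (Int.ofNat 4096) (Claim.split 2 (Int.ofNat 4608) (Tree.sound t242 s242) (Tree.sound t243 s243)) (Claim.split 2 (Int.ofNat 4608) (Claim.split 4 (Int.ofNat 1536) (Tree.sound t244 s244) (Tree.sound t245 s245)) (Tree.sound t246 s246))) (Tree.sound t247 s247))) (Tree.sound t248 s248))) (Claim.split 5 (Int.ofNat 4096) (Claim.split 4 (Int.ofNat 1536) (Tree.sound t249 s249) (Tree.sound t250 s250)) (Tree.sound t251 s251))) (Tree.sound t252 s252))) (Tree.sound t253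 s253))))))) (Claim.split 4 (Int.ofNat 1024) (Tree.sound t254 s254) (Tree.sound t255 s255))) (Claim.split 3 (Int.ofNat 4096) (Claim.split 3 (Int.ofNat 2048) (Tree.sound t256 s256) (Claim.split 4 (Int.ofNat 3072) (Claim.split 0 (Int.ofNat 1536) (Claim.split 1 (Int.ofNat 3584) (Tree.sound t257 s257) (Claim.split 3 (Int.ofNat 3072) (Tree.sound t258 s258) (Tree.sound t259 s259))) (Claim.split 5 (Int.ofNat 0) (Tree.sound t260 s260) (Claim.split 5 (Int.ofNat 8192) (Claim.split 6 (Int.ofNat 0) (Tree.sound t261 s261) (Claim.split 6 (Int.ofNat 8192) (Claim.split 6 (Int.ofNat 4096) (Claim.split 6 (Int.ofNat 2048) (Tree.sound t262 s262) (Claim.split 5 (Int.ofNat 4096) (Claim.split 5 (Int.ofNat 2048) (Tree.sound t263 s263) (Tree.sound t264 s264)) (Tree.sound t265 s265))) (Tree.sound t266 s266)) (Tree.sound t267 s267))) (Tree.sound t268 s268)))) (Tree.sound t269 s269))) (Tree.sound t270 s270))) (Tree.sound t271 s271)) (Tree.sound t272 s272))))) (Tree.sound t273 s273)))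 (Claim.split 4 (Int.ofNat 0) (Claim.split 4 (Int.negSucc 8191) (Tree.sound t274 s274) (Claim.split 0 (Int.ofNat 1024) (Claim.split 4 (Int.negSucc 4095) (Tree.sound t275 s275) (Claim.split 4 (Int.negSucc 2047) (Claim.split 2 (Int.ofNat 5632) (Claim.split 0 (Int.ofNat 512) (Tree.sound t276 s276) (Claim.split 0 (Int.ofNat 768) (Tree.sound t277 s277) (Claim.split 1 (Int.ofNat 3072) (Tree.sound t278 s278) (Claim.split 3 (Int.ofNat 0) (Tree.sound t279 s279) (Claim.split 1 (Int.ofNat 3584) (Tree.sound t280 s280) (Claim.split 3 (Int.ofNat 8192) (Claim.split 3 (Int.ofNat 4096) (Claim.split 3 (Int.ofNat 2048) (Tree.sound t281 s281) (Tree.sound t282 s282)) (Tree.sound t283 s283)) (Tree.sound t284 s284))))))) (Tree.sound t285 s285)) (Tree.sound t286 s286))) (Claim.split 4 (Int.negSucc 4095) (Tree.sound t287 s287) (Claim.split 4 (Int.negSucc 2047) (Claim.split 1 (Int.ofNat 3072) (Tree.sound t288 s288) (Claim.split 1 (Int.ofNat 3584) (Tree.sound t289 s289) (Claim.split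 3 (Int.ofNat 0) (Tree.sound t290 s290) (Tree.sound t291 s291)))) (Claim.split 1 (Int.ofNat 3072) (Tree.sound t292 s292) (Claim.split 3 (Int.ofNat 0) (Tree.sound t293 s293) (Claim.split 1 (Int.ofNat 3584) (Tree.sound t294 s294) (Claim.split 3 (Int.ofNat 8192) (Claim.split 3 (Int.ofNat 4096) (Claim.split 3 (Int.ofNat 2048) (Tree.sound t295 s295) (Tree.sound t296 s296)) (Tree.sound t297 s297)) (Tree.sound t298 s298))))))))) (Claim.split 4 (Int.ofNat 8192) (Claim.split 4 (Int.ofNat 4096) (Claim.split 4 (Int.ofNat 2048) (Claim.split 0 (Int.ofNat 1024) (Tree.sound t299 s299) (Claim.split 1 (Int.ofNat 3072) (Tree.sound t300 s300) (Claim.split 1 (Int.ofNat 3584) (Tree.sound t301 s301) (Claim.split 2 (Int.ofNat 5632) (Claim.split 3 (Int.ofNat 0) (Tree.sound t302 s302) (Claim.split 3 (Int.ofNat 8192) (Claim.split 1 (Int.ofNat 3840) (Tree.sound t303 s303) (Claim.split 2 (Int.ofNat 5376) (Claim.split 4 (Int.ofNat 1024) (Claim.split 3 (Int.ofNat 4096) (Claim.split 3 (Int.ofNat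 2048) (Tree.sound t304 s304) (Claim.split 1 (Int.ofNat 3968) (Tree.sound t305 s305) (Tree.sound t306 s306))) (Tree.sound t307 s307)) (Claim.split 1 (Int.ofNat 3968) (Tree.sound t308 s308) (Tree.sound t309 s309))) (Tree.sound t310 s310))) (Tree.sound t311 s311))) (Tree.sound t312 s312))))) (Tree.sound t313 s313)) (Tree.sound t314 s314)) (Tree.sound t315 s315)))) (Tree.sound t316 s316))) (Tree.sound t317 s317))) (Claim.split 1 (Int.ofNat 2048) (Tree.sound t318 s318) (Claim.split 0 (Int.ofNat 3072) (Claim.split 2 (Int.ofNat 8192) (Claim.split 2 (Int.ofNat 4096) (Claim.split 3 (Int.ofNat 0) (Claim.split 2 (Int.ofNat 2048) (Claim.split 3 (Int.negSucc 8191) (Tree.sound t319 s319) (Claim.split 3 (Int.negSucc 4095) (Claim.split 1 (Int.ofNat 3072) (Tree.sound t320 s320) (Claim.split 2 (Int.ofNat 1024) (Claim.split 1 (Int.ofNat 3584) (Tree.sound t321 s321) (Tree.sound t322 s322)) (Tree.sound t323 s323))) (Claim.split 3 (Int.negSucc 2047) (Claim.split 2 (Int.ofNat 1024)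 (Claim.split 1 (Int.ofNat 3072) (Tree.sound t324 s324) (Claim.split 1 (Int.ofNat 3584) (Tree.sound t325 s325) (Claim.split 2 (Int.ofNat 512) (Tree.sound t326 s326) (Tree.sound t327 s327)))) (Tree.sound t328 s328)) (Tree.sound t329 s329)))) (Tree.sound t330 s330)) (Claim.split 2 (Int.ofNat 2048) (Tree.sound t331 s331) (Claim.split 2 (Int.ofNat 3072) (Claim.split 3 (Int.ofNat 8192) (Claim.split 3 (Int.ofNat 4096) (Claim.split 3 (Int.ofNat 2048) (Tree.sound t332 s332) (Claim.split 1 (Int.ofNat 3072) (Tree.sound t333 s333) (Claim.split 3 (Int.ofNat 3072) (Tree.sound t334 s334) (Tree.sound t335 s335)))) (Tree.sound t336 s336)) (Tree.sound t337 s337)) (Claim.split 3 (Int.ofNat 8192) (Claim.split 3 (Int.ofNat 4096) (Claim.split 3 (Int.ofNat 2048) (Tree.sound t338 s338) (Claim.split 1 (Int.ofNat 3072) (Claim.split 1 (Int.ofNat 2560) (Tree.sound t339 s339) (Tree.sound t340 s340)) (Claim.split 4 (Int.ofNat 0) (Tree.sound t341 s341) (Claim.split 4 (Int.ofNat 8192) (Claim.split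 6 (Int.ofNat 0) (Claim.split 4 (Int.ofNat 4096) (Claim.split 4 (Int.ofNat 2048) (Claim.split 6 (Int.negSucc 8191) (Tree.sound t342 s342) (Claim.split 4 (Int.ofNat 1024) (Claim.split 3 (Int.ofNat 3072) (Tree.sound t343 s343) (Claim.split 6 (Int.negSucc 4095) (Tree.sound t344 s344) (Tree.sound t345 s345))) (Claim.split 6 (Int.negSucc 4095) (Tree.sound t346 s346) (Claim.split 6 (Int.negSucc 2047) (Tree.sound t347 s347) (Tree.sound t348 s348))))) (Claim.split 6 (Int.negSucc 8191) (Tree.sound t349 s349) (Claim.split 4 (Int.ofNat 3072) (Claim.split 6 (Int.negSucc 4095) (Tree.sound t350 s350) (Claim.split 6 (Int.negSucc 2047) (Claim.split 4 (Int.ofNat 2560) (Claim.split 7 (Int.ofNat 0) (Tree.sound t351 s351) (Tree.sound t352 s352)) (Claim.split 7 (Int.ofNat 0) (Claim.split 7 (Int.negSucc 8191) (Tree.sound t353 s353) (Claim.split 3 (Int.ofNat 3072) (Tree.sound t354 s354) (Tree.sound t355 s355))) (Tree.sound t356 s356))) (Claim.split 5 (Int.ofNat 0) (Claim.split 5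 (Int.negSucc 8191) (Tree.sound t357 s357) (Claim.split 4 (Int.ofNat 2560) (Tree.sound t358 s358) (Claim.split 0 (Int.ofNat 2560) (Tree.sound t359 s359) (Tree.sound t360 s360)))) (Tree.sound t361 s361)))) (Claim.split 6 (Int.negSucc 4095) (Tree.sound t362 s362) (Claim.split 6 (Int.negSucc 2047) (Claim.split 3 (Int.ofNat 3072) (Tree.sound t363 s363) (Claim.split 7 (Int.ofNat 0) (Claim.split 7 (Int.negSucc 8191) (Tree.sound t364 s364) (Claim.split 3 (Int.ofNat 3584) (Tree.sound t365 s365) (Claim.split 4 (Int.ofNat 3584) (Claim.split 8 (Int.ofNat 0) (Tree.sound t366 s366) (Tree.sound t367 s367)) (Claim.split 3 (Int.ofNat 3840) (Tree.sound t368 s368) (Tree.sound t369 s369))))) (Tree.sound t370 s370))) (Tree.sound t371 s371)))))) (Tree.sound t372 s372)) (Claim.split 6 (Int.ofNat 8192) (Claim.split 4 (Int.ofNat 4096) (Claim.split 4 (Int.ofNat 2048) (Claim.split 6 (Int.ofNat 4096) (Claim.split 3 (Int.ofNat 3072) (Claim.split 6 (Int.ofNat 2048) (Tree.sound t373 s373)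 (Tree.sound t374 s374)) (Claim.split 6 (Int.ofNat 2048) (Tree.sound t375 s375) (Tree.sound t376 s376))) (Tree.sound t377 s377)) (Claim.split 6 (Int.ofNat 4096) (Claim.split 6 (Int.ofNat 2048) (Claim.split 4 (Int.ofNat 3072) (Claim.split 4 (Int.ofNat 2560) (Tree.sound t378 s378) (Tree.sound t379 s379)) (Tree.sound t380 s380)) (Claim.split 4 (Int.ofNat 3072) (Claim.split 3 (Int.ofNat 3072) (Tree.sound t381 s381) (Tree.sound t382 s382)) (Tree.sound t383 s383))) (Tree.sound t384 s384))) (Tree.sound t385 s385)) (Tree.sound t386 s386))) (Tree.sound t387 s387))))) (Claim.split 1 (Int.ofNat 3072) (Tree.sound t388 s388) (Claim.split 3 (Int.ofNat 6144) (Claim.split 4 (Int.ofNat 0) (Tree.sound t389 s389) (Claim.split 4 (Int.ofNat 8192) (Claim.split 4 (Int.ofNat 4096) (Claim.split 4 (Int.ofNat 2048) (Tree.sound t390 s390) (Claim.split 6 (Int.ofNat 0) (Claim.split 6 (Int.negSucc 8191) (Tree.sound t391 s391) (Claim.split 4 (Int.ofNat 3072) (Claim.split 6 (Int.negSucc 4095)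 (Tree.sound t392 s392) (Claim.split 6 (Int.negSucc 2047) (Claim.split 4 (Int.ofNat 2560) (Tree.sound t393 s393) (Tree.sound t394 s394)) (Tree.sound t395 s395))) (Claim.split 6 (Int.negSucc 4095) (Tree.sound t396 s396) (Claim.split 6 (Int.negSucc 2047) (Claim.split 7 (Int.ofNat 0) (Claim.split 4 (Int.ofNat 3584) (Claim.split 7 (Int.negSucc 8191) (Tree.sound t397 s397) (Claim.split 7 (Int.negSucc 4095) (Tree.sound t398 s398) (Tree.sound t399 s399))) (Claim.split 7 (Int.negSucc 8191) (Tree.sound t400 s400) (Claim.split 7 (Int.negSucc 4095) (Tree.sound t401 s401) (Claim.split 8 (Int.ofNat 0) (Tree.sound t402 s402) (Tree.sound t403 s403))))) (Tree.sound t404 s404)) (Claim.split 7 (Int.ofNat 0) (Claim.split 7 (Int.negSucc 8191) (Tree.sound t405 s405) (Claim.split 7 (Int.negSucc 4095) (Tree.sound t406 s406) (Claim.split 5 (Int.ofNat 0) (Tree.sound t407 s407) (Tree.sound t408 s408)))) (Tree.sound t409 s409)))))) (Claim.split 6 (Int.ofNat 8192) (Claim.split 6 (Int.ofNat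 4096) (Tree.sound t410 s410) (Tree.sound t411 s411)) (Tree.sound t412 s412)))) (Claim.split 4 (Int.ofNat 6144) (Claim.split 4 (Int.ofNat 5120) (Claim.split 6 (Int.ofNat 0) (Claim.split 6 (Int.negSucc 8191) (Tree.sound t413 s413) (Claim.split 6 (Int.negSucc 4095) (Tree.sound t414 s414) (Claim.split 6 (Int.negSucc 2047) (Claim.split 7 (Int.ofNat 0) (Claim.split 7 (Int.negSucc 8191) (Tree.sound t415 s415) (Claim.split 4 (Int.ofNat 4608) (Claim.split 7 (Int.negSucc 4095) (Tree.sound t416 s416) (Claim.split 4 (Int.ofNat 4352) (Tree.sound t417 s417) (Tree.sound t418 s418))) (Tree.sound t419 s419))) (Tree.sound t420 s420)) (Tree.sound t421 s421)))) (Tree.sound t422 s422)) (Tree.sound t423 s423)) (Tree.sound t424 s424))) (Tree.sound t425 s425))) (Tree.sound t426 s426)))) (Tree.sound t427 s427))))) (Claim.split 2 (Int.ofNat 6144) (Claim.split 3 (Int.ofNat 0) (Tree.sound t428 s428) (Claim.split 3 (Int.ofNat 8192) (Claim.split 3 (Int.ofNat 4096) (Claim.split 2 (Int.ofNat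 5120) (Claim.split 3 (Int.ofNat 2048) (Tree.sound t429 s429) (Claim.split 1 (Int.ofNat 3072) (Tree.sound t430 s430) (Claim.split 6 (Int.ofNat 0) (Claim.split 6 (Int.negSucc 8191) (Tree.sound t431 s431) (Claim.split 6 (Int.negSucc 4095) (Claim.split 4 (Int.ofNat 0) (Tree.sound t432 s432) (Claim.split 4 (Int.ofNat 8192) (Claim.split 4 (Int.ofNat 4096) (Claim.split 4 (Int.ofNat 2048) (Tree.sound t433 s433) (Tree.sound t434 s434)) (Tree.sound t435 s435)) (Tree.sound t436 s436))) (Claim.split 6 (Int.negSucc 2047) (Claim.split 5 (Int.ofNat 0) (Tree.sound t437 s437) (Tree.sound t438 s438)) (Claim.split 5 (Int.ofNat 0) (Tree.sound t439 s439) (Claim.split 5 (Int.ofNat 8192) (Claim.split 5 (Int.ofNat 4096) (Claim.split 4 (Int.ofNat 0) (Tree.sound t440 s440) (Tree.sound t441 s441)) (Tree.sound t442 s442)) (Tree.sound t443 s443)))))) (Claim.split 6 (Int.ofNat 8192) (Claim.split 0 (Int.ofNat 2560) (Claim.split 6 (Int.ofNat 4096) (Claim.split 4 (Int.ofNat 0) (Tree.sound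 t444 s444) (Claim.split 4 (Int.ofNat 8192) (Claim.split 4 (Int.ofNat 4096) (Claim.split 6 (Int.ofNat 2048) (Claim.split 4 (Int.ofNat 2048) (Claim.split 3 (Int.ofNat 3072) (Claim.split 4 (Int.ofNat 1024) (Tree.sound t445 s445) (Tree.sound t446 s446)) (Claim.split 4 (Int.ofNat 1024) (Tree.sound t447 s447) (Tree.sound t448 s448))) (Claim.split 4 (Int.ofNat 3072) (Tree.sound t449 s449) (Tree.sound t450 s450))) (Claim.split 4 (Int.ofNat 2048) (Claim.split 4 (Int.ofNat 1024) (Claim.split 3 (Int.ofNat 3072) (Claim.split 2 (Int.ofNat 4608) (Tree.sound t451 s451) (Tree.sound t452 s452)) (Claim.split 2 (Int.ofNat 4608) (Tree.sound t453 s453) (Tree.sound t454 s454))) (Claim.split 3 (Int.ofNat 3072) (Tree.sound t455 s455) (Claim.split 5 (Int.ofNat 0) (Tree.sound t456 s456) (Claim.split 5 (Int.ofNat 8192) (Claim.split 5 (Int.ofNat 4096) (Claim.split 4 (Int.ofNat 1536) (Tree.sound t457 s457) (Tree.sound t458 s458)) (Tree.sound t459 s459)) (Tree.sound t460 s460))))) (Tree.sound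 t461 s461))) (Tree.sound t462 s462)) (Tree.sound t463 s463))) (Claim.split 2 (Int.ofNat 4608) (Tree.sound t464 s464) (Tree.sound t465 s465))) (Claim.split 6 (Int.ofNat 4096) (Claim.split 5 (Int.ofNat 0) (Claim.split 5 (Int.negSucc 8191) (Tree.sound t466 s466) (Claim.split 5 (Int.negSucc 4095) (Tree.sound t467 s467) (Claim.split 5 (Int.negSucc 2047) (Tree.sound t468 s468) (Claim.split 5 (Int.negSucc 1023) (Tree.sound t469 s469) (Tree.sound t470 s470))))) (Claim.split 5 (Int.ofNat 8192) (Claim.split 5 (Int.ofNat 4096) (Claim.split 5 (Int.ofNat 2048) (Claim.split 5 (Int.ofNat 1024) (Claim.split 2 (Int.ofNat 4608) (Tree.sound t471 s471) (Tree.sound t472 s472)) (Tree.sound t473 s473)) (Tree.sound t474 s474)) (Tree.sound t475 s475)) (Tree.sound t476 s476))) (Tree.sound t477 s477))) (Tree.sound t478 s478))))) (Claim.split 0 (Int.ofNat 2560) (Claim.split 3 (Int.ofNat 2048) (Tree.sound t479 s479) (Claim.split 2 (Int.ofNat 5632) (Claim.split 1 (Int.ofNat 3072) (Tree.sound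 t480 s480) (Claim.split 4 (Int.ofNat 0) (Tree.sound t481 s481) (Claim.split 4 (Int.ofNat 8192) (Claim.split 4 (Int.ofNat 4096) (Claim.split 4 (Int.ofNat 2048) (Claim.split 4 (Int.ofNat 1024) (Tree.sound t482 s482) (Tree.sound t483 s483)) (Tree.sound t484 s484)) (Tree.sound t485 s485)) (Tree.sound t486 s486)))) (Tree.sound t487 s487))) (Tree.sound t488 s488))) (Claim.split 2 (Int.ofNat 5120) (Claim.split 3 (Int.ofNat 6144) (Claim.split 4 (Int.ofNat 0) (Tree.sound t489 s489) (Claim.split 4 (Int.ofNat 8192) (Claim.split 4 (Int.ofNat 4096) (Claim.split 4 (Int.ofNat 2048) (Claim.split 1 (Int.ofNat 3072) (Tree.sound t490 s490) (Claim.split 4 (Int.ofNat 1024) (Claim.split 2 (Int.ofNat 4608) (Claim.split 1 (Int.ofNat 3584) (Tree.sound t491 s491) (Tree.sound t492 s492)) (Tree.sound t493 s493)) (Claim.split 3 (Int.ofNat 5120) (Claim.split 3 (Int.ofNat 4608) (Claim.split 6 (Int.ofNat 0) (Claim.split 6 (Int.negSucc 8191) (Tree.sound t494 s494) (Tree.sound t495 s495))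 (Tree.sound t496 s496)) (Tree.sound t497 s497)) (Tree.sound t498 s498)))) (Claim.split 6 (Int.ofNat 0) (Claim.split 6 (Int.negSucc 8191) (Tree.sound t499 s499) (Claim.split 4 (Int.ofNat 3072) (Claim.split 6 (Int.negSucc 4095) (Tree.sound t500 s500) (Claim.split 6 (Int.negSucc 2047) (Claim.split 1 (Int.ofNat 3072) (Tree.sound t501 s501) (Tree.sound t502 s502)) (Tree.sound t503 s503))) (Claim.split 6 (Int.negSucc 4095) (Tree.sound t504 s504) (Claim.split 6 (Int.negSucc 2047) (Tree.sound t505 s505) (Tree.sound t506 s506))))) (Claim.split 6 (Int.ofNat 8192) (Claim.split 6 (Int.ofNat 4096) (Claim.split 4 (Int.ofNat 3072) (Tree.sound t507 s507) (Tree.sound t508 s508)) (Tree.sound t509 s509)) (Tree.sound t510 s510)))) (Tree.sound t511 s511)) (Tree.sound t512 s512))) (Tree.sound t513 s513)) (Claim.split 3 (Int.ofNat 6144) (Claim.split 4 (Int.ofNat 0) (Tree.sound t514 s514) (Claim.split 4 (Int.ofNat 8192) (Claim.split 4 (Int.ofNat 4096) (Claim.split 4 (Int.ofNat 2048)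 (Tree.sound t515 s515) (Tree.sound t516 s516)) (Tree.sound t517 s517)) (Tree.sound t518 s518))) (Tree.sound t519 s519)))) (Tree.sound t520 s520))) (Tree.sound t521 s521))) (Tree.sound t522 s522)) (Claim.split 2 (Int.ofNat 8192) (Claim.split 2 (Int.ofNat 4096) (Claim.split 3 (Int.ofNat 0) (Claim.split 2 (Int.ofNat 2048) (Claim.split 3 (Int.negSucc 8191) (Tree.sound t523 s523) (Claim.split 3 (Int.negSucc 4095) (Claim.split 1 (Int.ofNat 3072) (Tree.sound t524 s524) (Claim.split 2 (Int.ofNat 1024) (Claim.split 3 (Int.negSucc 6143) (Tree.sound t525 s525) (Claim.split 4 (Int.ofNat 0) (Claim.split 4 (Int.negSucc 8191) (Tree.sound t526 s526) (Claim.split 4 (Int.negSucc 4095) (Claim.split 4 (Int.negSucc 6143) (Tree.sound t527 s527) (Claim.split 4 (Int.negSucc 5119) (Claim.split 0 (Int.ofNat 3584) (Tree.sound t528 s528) (Tree.sound t529 s529)) (Claim.split 4 (Int.negSucc 4607) (Claim.split 3 (Int.negSucc 5119) (Tree.sound t530 s530) (Claim.split 3 (Int.negSucc 4607)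 (Tree.sound t531 s531) (Tree.sound t532 s532))) (Tree.sound t533 s533)))) (Tree.sound t534 s534))) (Tree.sound t535 s535))) (Tree.sound t536 s536))) (Claim.split 3 (Int.negSucc 2047) (Claim.split 1 (Int.ofNat 3072) (Tree.sound t537 s537) (Claim.split 4 (Int.ofNat 0) (Claim.split 4 (Int.negSucc 8191) (Tree.sound t538 s538) (Claim.split 4 (Int.negSucc 4095) (Claim.split 4 (Int.negSucc 6143) (Tree.sound t539 s539) (Claim.split 4 (Int.negSucc 5119) (Tree.sound t540 s540) (Claim.split 5 (Int.ofNat 0) (Claim.split 5 (Int.negSucc 8191) (Tree.sound t541 s541) (Claim.split 5 (Int.negSucc 4095) (Tree.sound t542 s542) (Claim.split 2 (Int.ofNat 1024) (Claim.split 0 (Int.ofNat 3584) (Claim.split 5 (Int.negSucc 2047) (Tree.sound t543 s543) (Tree.sound t544 s544)) (Tree.sound t545 s545)) (Tree.sound t546 s546)))) (Tree.sound t547 s547)))) (Tree.sound t548 s548))) (Tree.sound t549 s549))) (Tree.sound t550 s550)))) (Tree.sound t551 s551)) (Claim.split 2 (Int.ofNat 2048) (Tree.sound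 t552 s552) (Claim.split 3 (Int.ofNat 8192) (Claim.split 3 (Int.ofNat 4096) (Claim.split 3 (Int.ofNat 2048) (Tree.sound t553 s553) (Claim.split 2 (Int.ofNat 3072) (Tree.sound t554 s554) (Tree.sound t555 s555))) (Claim.split 3 (Int.ofNat 6144) (Claim.split 2 (Int.ofNat 3072) (Tree.sound t556 s556) (Claim.split 1 (Int.ofNat 3072) (Tree.sound t557 s557) (Claim.split 3 (Int.ofNat 5120) (Claim.split 0 (Int.ofNat 3584) (Claim.split 0 (Int.ofNat 3328) (Claim.split 4 (Int.ofNat 0) (Tree.sound t558 s558) (Claim.split 4 (Int.ofNat 8192) (Claim.split 6 (Int.ofNat 0) (Claim.split 6 (Int.negSucc 8191) (Tree.sound t559 s559) (Claim.split 6 (Int.negSucc 4095) (Tree.sound t560 s560) (Tree.sound t561 s561))) (Tree.sound t562 s562)) (Tree.sound t563 s563))) (Tree.sound t564 s564)) (Tree.sound t565 s565)) (Tree.sound t566 s566)))) (Tree.sound t567 s567))) (Tree.sound t568 s568)))) (Claim.split 0 (Int.ofNat 3584) (Claim.split 0 (Int.ofNat 3328) (Claim.split 1 (Int.ofNat 3072)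 (Tree.sound t569 s569) (Claim.split 1 (Int.ofNat 3584) (Tree.sound t570 s570) (Claim.split 2 (Int.ofNat 6144) (Claim.split 2 (Int.ofNat 5120) (Claim.split 2 (Int.ofNat 4608) (Claim.split 3 (Int.ofNat 0) (Tree.sound t571 s571) (Claim.split 3 (Int.ofNat 8192) (Claim.split 3 (Int.ofNat 4096) (Tree.sound t572 s572) (Tree.sound t573 s573)) (Tree.sound t574 s574))) (Tree.sound t575 s575)) (Tree.sound t576 s576)) (Tree.sound t577 s577)))) (Tree.sound t578 s578)) (Tree.sound t579 s579))) (Tree.sound t580 s580))))) (Tree.sound t581 s581))) (Tree.sound t582 s582))) (Claim.split 0 (Int.ofNat 0) (Tree.sound t583 s583) (Claim.split 0 (Int.ofNat 8192) (Claim.split 1 (Int.ofNat 6144) (Claim.split 2 (Int.ofNat 0) (Claim.split 2 (Int.negSucc 8191) (Tree.sound t584 s584) (Claim.split 0 (Int.ofNat 4096) (Tree.sound t585 s585) (Tree.sound t586 s586))) (Claim.split 2 (Int.ofNat 8192) (Claim.split 2 (Int.ofNat 4096) (Claim.split 0 (Int.ofNat 4096) (Claim.split 0 (Int.ofNat 2048)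 (Claim.split 1 (Int.ofNat 5120) (Claim.split 0 (Int.ofNat 1024) (Tree.sound t587 s587) (Tree.sound t588 s588)) (Tree.sound t589 s589)) (Claim.split 3 (Int.ofNat 0) (Claim.split 2 (Int.ofNat 2048) (Claim.split 3 (Int.negSucc 8191) (Tree.sound t590 s590) (Claim.split 3 (Int.negSucc 4095) (Tree.sound t591 s591) (Tree.sound t592 s592))) (Tree.sound t593 s593)) (Claim.split 2 (Int.ofNat 2048) (Tree.sound t594 s594) (Claim.split 3 (Int.ofNat 8192) (Claim.split 3 (Int.ofNat 4096) (Claim.split 3 (Int.ofNat 2048) (Tree.sound t595 s595) (Claim.split 0 (Int.ofNat 3072) (Claim.split 4 (Int.ofNat 0) (Tree.sound t596 s596) (Claim.split 4 (Int.ofNat 8192) (Claim.split 4 (Int.ofNat 4096) (Claim.split 4 (Int.ofNat 2048) (Tree.sound t597 s597) (Tree.sound t598 s598)) (Tree.sound t599 s599)) (Tree.sound t600 s600))) (Tree.sound t601 s601))) (Claim.split 0 (Int.ofNat 3072) (Claim.split 1 (Int.ofNat 5120) (Claim.split 1 (Int.ofNat 4608) (Claim.split 1 (Int.ofNat 4352) (Claim.split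 1 (Int.ofNat 4224) (Tree.sound t602 s602) (Tree.sound t603 s603)) (Tree.sound t604 s604)) (Tree.sound t605 s605)) (Tree.sound t606 s606)) (Claim.split 1 (Int.ofNat 5120) (Claim.split 1 (Int.ofNat 4608) (Claim.split 1 (Int.ofNat 4352) (Tree.sound t607 s607) (Tree.sound t608 s608)) (Tree.sound t609 s609)) (Tree.sound t610 s610)))) (Tree.sound t611 s611))))) (Tree.sound t612 s612)) (Claim.split 0 (Int.ofNat 4096) (Claim.split 0 (Int.ofNat 2048) (Claim.split 2 (Int.ofNat 6144) (Claim.split 2 (Int.ofNat 5120) (Claim.split 3 (Int.ofNat 0) (Tree.sound t613 s613) (Claim.split 3 (Int.ofNat 8192) (Claim.split 3 (Int.ofNat 4096) (Claim.split 4 (Int.ofNat 0) (Claim.split 4 (Int.negSucc 8191) (Tree.sound t614 s614) (Claim.split 4 (Int.negSucc 4095) (Tree.sound t615 s615) (Claim.split 3 (Int.ofNat 2048) (Claim.split 4 (Int.negSucc 2047) (Claim.split 0 (Int.ofNat 1024) (Tree.sound t616 s616) (Tree.sound t617 s617)) (Claim.split 0 (Int.ofNat 1024) (Tree.sound t618 s618) (Claim.split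 4 (Int.negSucc 1023) (Tree.sound t619 s619) (Tree.sound t620 s620)))) (Claim.split 4 (Int.negSucc 2047) (Tree.sound t621 s621) (Claim.split 0 (Int.ofNat 1024) (Tree.sound t622 s622) (Claim.split 3 (Int.ofNat 3072) (Claim.split 1 (Int.ofNat 5120) (Claim.split 1 (Int.ofNat 4608) (Claim.split 1 (Int.ofNat 4352) (Claim.split 5 (Int.ofNat 0) (Tree.sound t623 s623) (Claim.split 4 (Int.negSucc 1023) (Tree.sound t624 s624) (Claim.split 5 (Int.ofNat 8192) (Claim.split 5 (Int.ofNat 4096) (Claim.split 5 (Int.ofNat 2048) (Claim.split 5 (Int.ofNat 1024) (Tree.sound t625 s625) (Tree.sound t626 s626)) (Tree.sound t627 s627)) (Tree.sound t628 s628)) (Tree.sound t629 s629)))) (Tree.sound t630 s630)) (Tree.sound t631 s631)) (Tree.sound t632 s632)) (Claim.split 1 (Int.ofNat 5120) (Claim.split 1 (Int.ofNat 4608) (Claim.split 3 (Int.ofNat 3584) (Tree.sound t633 s633) (Tree.sound t634 s634)) (Tree.sound t635 s635)) (Tree.sound t636 s636)))))))) (Claim.split 4 (Int.ofNat 8192) (Claim.split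 4 (Int.ofNat 4096) (Claim.split 4 (Int.ofNat 2048) (Claim.split 3 (Int.ofNat 2048) (Tree.sound t637 s637) (Claim.split 4 (Int.ofNat 1024) (Claim.split 2 (Int.ofNat 4608) (Claim.split 3 (Int.ofNat 3072) (Claim.split 1 (Int.ofNat 5120) (Claim.split 1 (Int.ofNat 4608) (Claim.split 1 (Int.ofNat 4352) (Claim.split 0 (Int.ofNat 1024) (Tree.sound t638 s638) (Tree.sound t639 s639)) (Tree.sound t640 s640)) (Tree.sound t641 s641)) (Tree.sound t642 s642)) (Tree.sound t643 s643)) (Claim.split 1 (Int.ofNat 5120) (Claim.split 3 (Int.ofNat 3072) (Claim.split 1 (Int.ofNat 4608) (Claim.split 0 (Int.ofNat 1024) (Tree.sound t644 s644) (Claim.split 6 (Int.ofNat 0) (Tree.sound t645 s645) (Claim.split 1 (Int.ofNat 4352) (Claim.split 6 (Int.ofNat 8192) (Claim.split 6 (Int.ofNat 4096) (Claim.split 6 (Int.ofNat 2048) (Tree.sound t646 s646) (Tree.sound t647 s647)) (Claim.split 5 (Int.ofNat 0) (Tree.sound t648 s648) (Claim.split 5 (Int.ofNat 8192) (Claim.split 5 (Int.ofNat 4096) (Claim.split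 6 (Int.ofNat 6144) (Claim.split 1 (Int.ofNat 4224) (Tree.sound t649 s649) (Tree.sound t650 s650)) (Tree.sound t651 s651)) (Tree.sound t652 s652)) (Tree.sound t653 s653)))) (Tree.sound t654 s654)) (Tree.sound t655 s655)))) (Tree.sound t656 s656)) (Claim.split 1 (Int.ofNat 4608) (Claim.split 0 (Int.ofNat 1024) (Tree.sound t657 s657) (Claim.split 6 (Int.ofNat 0) (Tree.sound t658 s658) (Tree.sound t659 s659))) (Tree.sound t660 s660))) (Tree.sound t661 s661))) (Claim.split 1 (Int.ofNat 5120) (Claim.split 2 (Int.ofNat 4608) (Tree.sound t662 s662) (Claim.split 1 (Int.ofNat 4608) (Claim.split 0 (Int.ofNat 1024) (Tree.sound t663 s663) (Claim.split 6 (Int.ofNat 0) (Tree.sound t664 s664) (Claim.split 6 (Int.ofNat 8192) (Claim.split 3 (Int.ofNat 3072) (Tree.sound t665 s665) (Tree.sound t666 s666)) (Tree.sound t667 s667)))) (Tree.sound t668 s668))) (Tree.sound t669 s669)))) (Claim.split 3 (Int.ofNat 2048) (Tree.sound t670 s670) (Claim.split 0 (Int.ofNat 1024) (Tree.sound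 t671 s671) (Claim.split 0 (Int.ofNat 1536) (Tree.sound t672 s672) (Claim.split 1 (Int.ofNat 5120) (Claim.split 2 (Int.ofNat 4608) (Tree.sound t673 s673) (Tree.sound t674 s674)) (Tree.sound t675 s675)))))) (Tree.sound t676 s676)) (Tree.sound t677 s677))) (Claim.split 0 (Int.ofNat 1024) (Tree.sound t678 s678) (Claim.split 1 (Int.ofNat 5120) (Claim.split 0 (Int.ofNat 1536) (Tree.sound t679 s679) (Claim.split 1 (Int.ofNat 4608) (Claim.split 3 (Int.ofNat 6144) (Claim.split 3 (Int.ofNat 5120) (Claim.split 4 (Int.ofNat 0) (Tree.sound t680 s680) (Claim.split 4 (Int.ofNat 8192) (Claim.split 4 (Int.ofNat 4096) (Claim.split 4 (Int.ofNat 2048) (Tree.sound t681 s681) (Claim.split 4 (Int.ofNat 3072) (Claim.split 4 (Int.ofNat 2560) (Tree.sound t682 s682) (Tree.sound t683 s683)) (Tree.sound t684 s684))) (Tree.sound t685 s685)) (Tree.sound t686 s686))) (Tree.sound t687 s687)) (Tree.sound t688 s688)) (Tree.sound t689 s689))) (Tree.sound t690 s690)))) (Tree.sound t691 s691)))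 (Claim.split 0 (Int.ofNat 1024) (Claim.split 1 (Int.ofNat 5120) (Claim.split 3 (Int.ofNat 0) (Tree.sound t692 s692) (Claim.split 0 (Int.ofNat 512) (Tree.sound t693 s693) (Claim.split 3 (Int.ofNat 8192) (Claim.split 3 (Int.ofNat 4096) (Claim.split 4 (Int.ofNat 0) (Claim.split 4 (Int.negSucc 8191) (Tree.sound t694 s694) (Claim.split 4 (Int.negSucc 4095) (Tree.sound t695 s695) (Claim.split 3 (Int.ofNat 2048) (Claim.split 4 (Int.negSucc 2047) (Claim.split 2 (Int.ofNat 5632) (Tree.sound t696 s696) (Tree.sound t697 s697)) (Tree.sound t698 s698)) (Tree.sound t699 s699)))) (Tree.sound t700 s700)) (Tree.sound t701 s701)) (Tree.sound t702 s702)))) (Tree.sound t703 s703)) (Claim.split 4 (Int.ofNat 0) (Claim.split 4 (Int.negSucc 8191) (Tree.sound t704 s704) (Claim.split 4 (Int.negSucc 4095) (Tree.sound t705 s705) (Claim.split 4 (Int.negSucc 2047) (Claim.split 1 (Int.ofNat 5120) (Claim.split 3 (Int.ofNat 0) (Tree.sound t706 s706) (Claim.split 3 (Int.ofNat 8192) (Claim.split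 3 (Int.ofNat 4096) (Claim.split 2 (Int.ofNat 5632) (Tree.sound t707 s707) (Tree.sound t708 s708)) (Tree.sound t709 s709)) (Tree.sound t710 s710))) (Tree.sound t711 s711)) (Claim.split 1 (Int.ofNat 5120) (Claim.split 3 (Int.ofNat 0) (Tree.sound t712 s712) (Claim.split 3 (Int.ofNat 8192) (Claim.split 3 (Int.ofNat 4096) (Claim.split 2 (Int.ofNat 5632) (Claim.split 3 (Int.ofNat 2048) (Tree.sound t713 s713) (Tree.sound t714 s714)) (Claim.split 3 (Int.ofNat 2048) (Tree.sound t715 s715) (Tree.sound t716 s716))) (Tree.sound t717 s717)) (Tree.sound t718 s718))) (Tree.sound t719 s719))))) (Claim.split 4 (Int.ofNat 8192) (Claim.split 4 (Int.ofNat 4096) (Claim.split 4 (Int.ofNat 2048) (Claim.split 1 (Int.ofNat 5120) (Claim.split 3 (Int.ofNat 0) (Tree.sound t720 s720) (Claim.split 3 (Int.ofNat 8192) (Claim.split 4 (Int.ofNat 1024) (Claim.split 3 (Int.ofNat 4096) (Claim.split 3 (Int.ofNat 2048) (Tree.sound t721 s721) (Claim.split 2 (Int.ofNat 5632) (Claim.split 2 (Int.ofNat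 5376) (Claim.split 1 (Int.ofNat 4608) (Tree.sound t722 s722) (Tree.sound t723 s723)) (Tree.sound t724 s724)) (Tree.sound t725 s725))) (Tree.sound t726 s726)) (Claim.split 3 (Int.ofNat 4096) (Claim.split 2 (Int.ofNat 5632) (Claim.split 2 (Int.ofNat 5376) (Tree.sound t727 s727) (Tree.sound t728 s728)) (Tree.sound t729 s729)) (Tree.sound t730 s730))) (Tree.sound t731 s731))) (Tree.sound t732 s732)) (Tree.sound t733 s733)) (Tree.sound t734 s734)) (Tree.sound t735 s735))))) (Tree.sound t736 s736)) (Claim.split 0 (Int.ofNat 3072) (Claim.split 2 (Int.ofNat 6144) (Claim.split 2 (Int.ofNat 5120) (Claim.split 1 (Int.ofNat 5120) (Claim.split 3 (Int.ofNat 0) (Tree.sound t737 s737) (Claim.split 3 (Int.ofNat 8192) (Claim.split 3 (Int.ofNat 4096) (Claim.split 3 (Int.ofNat 2048) (Tree.sound t738 s738) (Claim.split 6 (Int.ofNat 0) (Claim.split 6 (Int.negSucc 8191) (Tree.sound t739 s739) (Claim.split 6 (Int.negSucc 4095) (Claim.split 2 (Int.ofNat 4608) (Tree.sound t740 s740)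 (Tree.sound t741 s741)) (Claim.split 4 (Int.ofNat 0) (Claim.split 4 (Int.negSucc 8191) (Tree.sound t742 s742) (Claim.split 4 (Int.negSucc 4095) (Tree.sound t743 s743) (Claim.split 4 (Int.negSucc 2047) (Tree.sound t744 s744) (Claim.split 6 (Int.negSucc 2047) (Tree.sound t745 s745) (Tree.sound t746 s746))))) (Claim.split 4 (Int.ofNat 8192) (Claim.split 4 (Int.ofNat 4096) (Claim.split 4 (Int.ofNat 2048) (Claim.split 6 (Int.negSucc 2047) (Claim.split 4 (Int.ofNat 1024) (Claim.split 3 (Int.ofNat 3072) (Tree.sound t747 s747) (Claim.split 0 (Int.ofNat 2560) (Tree.sound t748 s748) (Tree.sound t749 s749))) (Claim.split 2 (Int.ofNat 4608) (Tree.sound t750 s750) (Tree.sound t751 s751))) (Claim.split 4 (Int.ofNat 1024) (Claim.split 3 (Int.ofNat 3072) (Tree.sound t752 s752) (Tree.sound t753 s753)) (Tree.sound t754 s754))) (Tree.sound t755 s755)) (Tree.sound t756 s756)) (Tree.sound t757 s757))))) (Claim.split 6 (Int.ofNat 8192) (Claim.split 2 (Int.ofNat 4608) (Claim.split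 6 (Int.ofNat 4096) (Claim.split 6 (Int.ofNat 2048) (Tree.sound t758 s758) (Claim.split 3 (Int.ofNat 3072) (Claim.split 1 (Int.ofNat 4608) (Claim.split 0 (Int.ofNat 2560) (Tree.sound t759 s759) (Tree.sound t760 s760)) (Tree.sound t761 s761)) (Tree.sound t762 s762))) (Tree.sound t763 s763)) (Claim.split 6 (Int.ofNat 4096) (Claim.split 6 (Int.ofNat 2048) (Claim.split 4 (Int.ofNat 0) (Tree.sound t764 s764) (Claim.split 4 (Int.ofNat 8192) (Tree.sound t765 s765) (Tree.sound t766 s766))) (Claim.split 0 (Int.ofNat 2560) (Claim.split 4 (Int.ofNat 0) (Tree.sound t767 s767) (Claim.split 4 (Int.ofNat 8192) (Tree.sound t768 s768) (Tree.sound t769 s769))) (Tree.sound t770 s770))) (Tree.sound t771 s771))) (Tree.sound t772 s772)))) (Claim.split 3 (Int.ofNat 6144) (Claim.split 4 (Int.ofNat 0) (Tree.sound t773 s773) (Claim.split 4 (Int.ofNat 8192) (Claim.split 4 (Int.ofNat 4096) (Claim.split 4 (Int.ofNat 2048) (Claim.split 2 (Int.ofNat 4608) (Tree.sound t774 s774) (Claim.split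 4 (Int.ofNat 1024) (Tree.sound t775 s775) (Claim.split 1 (Int.ofNat 4608) (Tree.sound t776 s776) (Tree.sound t777 s777)))) (Tree.sound t778 s778)) (Tree.sound t779 s779)) (Tree.sound t780 s780))) (Tree.sound t781 s781))) (Tree.sound t782 s782))) (Tree.sound t783 s783)) (Claim.split 3 (Int.ofNat 0) (Tree.sound t784 s784) (Claim.split 3 (Int.ofNat 8192) (Claim.split 6 (Int.ofNat 0) (Claim.split 6 (Int.negSucc 8191) (Tree.sound t785 s785) (Claim.split 6 (Int.negSucc 4095) (Tree.sound t786 s786) (Claim.split 6 (Int.negSucc 2047) (Claim.split 7 (Int.ofNat 0) (Claim.split 7 (Int.negSucc 8191) (Tree.sound t787 s787) (Claim.split 7 (Int.negSucc 4095) (Tree.sound t788 s788) (Claim.split 7 (Int.negSucc 2047) (Tree.sound t789 s789) (Tree.sound t790 s790)))) (Tree.sound t791 s791)) (Claim.split 0 (Int.ofNat 2560) (Claim.split 1 (Int.ofNat 5120) (Claim.split 4 (Int.ofNat 0) (Tree.sound t792 s792) (Tree.sound t793 s793)) (Tree.sound t794 s794)) (Claim.split 1 (Int.ofNat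 5120) (Claim.split 0 (Int.ofNat 2816) (Claim.split 2 (Int.ofNat 5632) (Claim.split 2 (Int.ofNat 5376) (Claim.split 5 (Int.ofNat 0) (Claim.split 5 (Int.negSucc 8191) (Tree.sound t795 s795) (Claim.split 5 (Int.negSucc 4095) (Tree.sound t796 s796) (Claim.split 5 (Int.negSucc 2047) (Tree.sound t797 s797) (Tree.sound t798 s798)))) (Tree.sound t799 s799)) (Tree.sound t800 s800)) (Tree.sound t801 s801)) (Tree.sound t802 s802)) (Tree.sound t803 s803)))))) (Claim.split 6 (Int.ofNat 8192) (Claim.split 6 (Int.ofNat 4096) (Claim.split 0 (Int.ofNat 2560) (Claim.split 2 (Int.ofNat 5632) (Claim.split 1 (Int.ofNat 5120) (Claim.split 7 (Int.ofNat 0) (Claim.split 7 (Int.negSucc 8191) (Tree.sound t804 s804) (Claim.split 7 (Int.negSucc 4095) (Tree.sound t805 s805) (Claim.split 7 (Int.negSucc 2047) (Tree.sound t806 s806) (Claim.split 6 (Int.ofNat 2048) (Claim.split 0 (Int.ofNat 2304) (Claim.split 2 (Int.ofNat 5376) (Tree.sound t807 s807) (Tree.sound t808 s808)) (Tree.sound t809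 s809)) (Tree.sound t810 s810))))) (Claim.split 7 (Int.ofNat 8192) (Claim.split 7 (Int.ofNat 4096) (Claim.split 6 (Int.ofNat 2048) (Claim.split 7 (Int.ofNat 2048) (Claim.split 3 (Int.ofNat 4096) (Claim.split 3 (Int.ofNat 2048) (Tree.sound t811 s811) (Tree.sound t812 s812)) (Tree.sound t813 s813)) (Claim.split 3 (Int.ofNat 4096) (Tree.sound t814 s814) (Tree.sound t815 s815))) (Claim.split 3 (Int.ofNat 4096) (Claim.split 3 (Int.ofNat 2048) (Tree.sound t816 s816) (Claim.split 4 (Int.ofNat 0) (Tree.sound t817 s817) (Tree.sound t818 s818))) (Tree.sound t819 s819))) (Claim.split 7 (Int.ofNat 6144) (Claim.split 7 (Int.ofNat 5120) (Claim.split 8 (Int.ofNat 0) (Tree.sound t820 s820) (Claim.split 8 (Int.ofNat 8192) (Claim.split 8 (Int.ofNat 4096) (Claim.split 0 (Int.ofNat 2304) (Claim.split 7 (Int.ofNat 4608) (Claim.split 2 (Int.ofNat 5376) (Claim.split 3 (Int.ofNat 4096) (Tree.sound t821 s821) (Tree.sound t822 s822)) (Tree.sound t823 s823)) (Claim.split 2 (Int.ofNat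 5376) (Claim.split 7 (Int.ofNat 4864) (Claim.split 1 (Int.ofNat 4608) (Claim.split 0 (Int.ofNat 2176) (Claim.split 2 (Int.ofNat 5248) (Tree.sound t824 s824) (Tree.sound t825 s825)) (Tree.sound t826 s826)) (Tree.sound t827 s827)) (Tree.sound t828 s828)) (Tree.sound t829 s829))) (Claim.split 2 (Int.ofNat 5376) (Claim.split 0 (Int.ofNat 2432) (Claim.split 7 (Int.ofNat 4608) (Claim.split 1 (Int.ofNat 4608) (Claim.split 7 (Int.ofNat 4352) (Claim.split 2 (Int.ofNat 5248) (Tree.sound t830 s830) (Tree.sound t831 s831)) (Tree.sound t832 s832)) (Tree.sound t833 s833)) (Tree.sound t834 s834)) (Tree.sound t835 s835)) (Tree.sound t836 s836))) (Tree.sound t837 s837)) (Tree.sound t838 s838))) (Tree.sound t839 s839)) (Tree.sound t840 s840))) (Tree.sound t841 s841))) (Tree.sound t842 s842)) (Tree.sound t843 s843)) (Claim.split 3 (Int.ofNat 4096) (Tree.sound t844 s844) (Tree.sound t845 s845))) (Tree.sound t846 s846)) (Tree.sound t847 s847))) (Tree.sound t848 s848)))) (Tree.sound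 t849 s849)) (Claim.split 2 (Int.ofNat 6144) (Claim.split 1 (Int.ofNat 5120) (Claim.split 0 (Int.ofNat 3584) (Claim.split 2 (Int.ofNat 5120) (Claim.split 3 (Int.ofNat 0) (Tree.sound t850 s850) (Claim.split 3 (Int.ofNat 8192) (Claim.split 3 (Int.ofNat 4096) (Tree.sound t851 s851) (Claim.split 3 (Int.ofNat 6144) (Claim.split 0 (Int.ofNat 3328) (Claim.split 4 (Int.ofNat 0) (Tree.sound t852 s852) (Claim.split 4 (Int.ofNat 8192) (Tree.sound t853 s853) (Tree.sound t854 s854))) (Tree.sound t855 s855)) (Tree.sound t856 s856))) (Tree.sound t857 s857))) (Tree.sound t858 s858)) (Tree.sound t859 s859)) (Tree.sound t860 s860)) (Tree.sound t861 s861)))) (Tree.sound t862 s862))) (Tree.sound t863 s863))) (Tree.sound t864 s864)) (Tree.sound t865 s865)))) (Tree.sound t866 s866))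

end Run7.h583.T
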